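import Pool.Agent.TH894.LG12

/-!
# The conjecture of Elliott and Halberstam on average over very few residues

Absolute values over all moduli and arbitrary heights inside; the residue is averaged over the
`exp(O((log log X)^2))` numbers which arise from an arbitrary integer by `C log log X` changes of digits.

From Mathlib: `ArithmeticFunction.vonMangoldt`: the function `Λ`; `Nat.totient`: Euler's function.
-/

set_option autoImplicit false

namespace Pool.Agent.Results.MP_a78e8f_nt.AveragesOverFewResidues

open Finset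

/-- `ψ(x; q, a)`: the sum of `Λ(n)` over the `n ≤ x` with `n ≡ a (mod q)`. -/
noncomputable def psi (x q a : ℕ) : ℝ :=
  ∑ n ∈ (Icc 1 x).filter (fun n => n ≡ a [MOD q]), ArithmeticFunction.vonMangoldt n

/-- The digit number `i` (counted from the right, beginning with `0`) of `n` in base `b`. -/
def digit (b i n : ℕ) : ℕ := n / b ^ i % b

/-- The number which arises from the number `N` with at most `K` digits in base `b`, if for every `i ∈ S`
the digit number `i` is replaced by `f i`. -/
def change (b K N : ℕ) (f : ℕ → ℕ) (S : Finset ℕ) : ℕ :=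
  ∑ i ∈ range K, (if i ∈ S then f i else digit b i N) * b ^ i

/-- The positions `1, ..., K - 1` of a number with at most `K` digits are divided into three windows: the
first and the last `h` positions and the rest. -/
def window (h K : ℕ) (q : Fin 3) : Finset ℕ :=
  if q = 0 then Ico 1 (1 + h) else if q = 1 then Ico (1 + h) (K - h) else Ico (K - h) K

/-- The choices of `s 0`, `s 1`, `s 2` positions in the three windows. -/
def choices (h K : ℕ) (s : Fin 3 → ℕ) : Finset (Fin 3 → Finset ℕ) :=
  Fintype.piFinset (fun q => powersetCard (s q) (window h K q))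

/-- The residue `a_S`: the number obtained by changing the digits of `N` at the chosen positions
according to `f`. -/
def residue (b K N : ℕ) (f : ℕ → ℕ) (S : Fin 3 → Finset ℕ) : ℕ := change b K N f (S 0 ∪ S 1 ∪ S 2)

/-- For the modulus `q` and the height `x`: the sum of `c(S) (ψ(x; q, a_S) - x / φ(q))` over the choices `S`
for which the residue `a_S` is positive and coprime to `q`. -/
noncomputable def total (b h K N : ℕ) (f : ℕ → ℕ) (s : Fin 3 → ℕ) (c : (Fin 3 → Finset ℕ) → ℝ) (x q : ℕ) : ℝ :=
  ∑ S ∈ (choices h K s).filter (fun S => 0 < residue b K N f S ∧ (residue b K N f S).Coprime q),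
    c S * (psi x q (residue b K N f S) - (x : ℝ) / Nat.totient q)

lemma change_SM (b K N : ℕ) (f : ℕ → ℕ) (T : Finset ℕ) : change b K N f T = Pool.Agent.TH894.SM.change b K N f T := rfl

/-- For every base `b ≥ 2` there is an `R ≥ 1` with the following property. Let `T`, `U` be given. Then there
are `C ≥ 1`, `A` and `D` such that for every sufficiently large `K` and every integer `0 ≤ N < X = b ^ K` the following holds.

Let `m = ⌊log_b (K + 1)⌋ + 1` and `h = A m`, and divide the positions `1, ..., K - 1` of the digits into three windows: the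
first `h` and the last `h` of them, and the rest. Prescribe for every position `j` a digit `f j` different from the
digit of `N`. Let `s 0`, `s 1`, `s 2` be integers between `C m` and `1 / R` times the length of the respective
window (by the first assertion one can take `s q = C m`, so that only `3 C m` of the digits of `N` are changed). For
every choice `S` of `s 0`, `s 1`, `s 2` positions in the three windows let `a_S` be the number which arises if the
digits of `N` at these positions are replaced, and let `c(S)` be arbitrary real coefficients with `|c(S)| ≤ K ^ T`.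

Then for all heights `x(q) ≤ X` the sum over ALL moduli `q ≤ Q`, `Q ≤ X exp(- D log ^ 2 K)`, of the absolute values of the
sums of `c(S) (ψ(x(q); q, a_S) - x(q) / φ(q))` over the `S` with `a_S > 0` coprime to `q` is at most `X / K ^ U` times the
number of the choices. -/
theorem result (b : ℕ) (hb : 2 ≤ b) : ∃ R : ℕ, 1 ≤ R ∧ ∀ T U : ℕ, ∃ C A D K₀ : ℕ, 1 ≤ C ∧
    ∀ K : ℕ, K₀ ≤ K → (∀ q, R * (C * (Nat.log b (K + 1) + 1)) ≤ (window (A * (Nat.log b (K + 1) + 1)) K q).card) ∧
    ∀ N : ℕ, N < b ^ K → ∀ f : ℕ → ℕ, (∀ j, f j < b ∧ f j ≠ digit b j N) →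
    ∀ s : Fin 3 → ℕ, (∀ q, C * (Nat.log b (K + 1) + 1) ≤ s q ∧ R * s q ≤ (window (A * (Nat.log b (K + 1) + 1)) K q).card) →
    ∀ c : (Fin 3 → Finset ℕ) → ℝ, (∀ S, |c S| ≤ (K : ℝ) ^ T) → ∀ x : ℕ → ℕ, (∀ q, x q ≤ b ^ K) →
    ∀ Q : ℕ, (Q : ℝ) * Real.exp (D * Real.log K ^ 2) ≤ ((b ^ K : ℕ) : ℝ) →
      ∑ q ∈ Icc 1 Q, |total b (A * (Nat.log b (K + 1) + 1)) K N f s c (x q) q| ≤
        (choices (A * (Nat.log b (K + 1) + 1)) K s).card * (((b ^ K : ℕ) : ℝ) / (K : ℝ) ^ U) := by
  classical
  obtain ⟨R, hR, H⟩ := Pool.Agent.TH894.LG.av_K2 b hb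
  refine ⟨8 * R, by omega, fun T U => ?_⟩
  obtain ⟨C, hC, H1⟩ := H T U
  obtain ⟨A, hA, D, k₀, h0⟩ := H1 (8 * R * C)
  obtain ⟨k2, h2⟩ := Pool.Agent.W93.DG.hh_small b A 4 hb
  refine ⟨C, 2 * A, D, k₀ + k2 + 8, hC, fun K hK => ?_⟩
  have hwin : ∀ q, window (2 * A * (Nat.log b (K + 1) + 1)) K q =
      Pool.Agent.TH894.SM.Win (Pool.Agent.W93.DG.hh b A (K + 1)) (K + 1) q := by
    intro q
    unfold window Pool.Agent.TH894.SM.Win Pool.Agent.W93.DG.hh
    rw [Nat.add_sub_cancel]
  have hsm := h2 (K + 1) (by omega)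
  have hlow : 8 * R * (C * (Nat.log b (K + 1) + 1)) ≤ Pool.Agent.W93.DG.hh b A (K + 1) := by
    unfold Pool.Agent.W93.DG.hh
    calc 8 * R * (C * (Nat.log b (K + 1) + 1)) = (8 * R * C) * (Nat.log b (K + 1) + 1) := by ring
      _ ≤ (2 * A) * (Nat.log b (K + 1) + 1) := Nat.mul_le_mul_right _ (by omega)
  refine ⟨fun q => ?_, fun N hN f hf s hs c hc x hx Q hQ => ?_⟩
  · rw [hwin]
    refine hlow.trans ?_
    unfold Pool.Agent.TH894.SM.Win
    split_ifs
    · rw [Nat.card_Ico]; omega
    · rw [Nat.card_Ico]; omega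
    · rw [Nat.card_Ico]; omega
  have hun : ∀ S : Fin 3 → Finset ℕ, Pool.Agent.TH894.SM.un S = S 0 ∪ S 1 ∪ S 2 := by
    intro S
    unfold Pool.Agent.TH894.SM.un
    ext x
    simp only [mem_biUnion, mem_univ, true_and, mem_union]
    constructor
    · rintro ⟨q, hq⟩
      have hq3 : q = 0 ∨ q = 1 ∨ q = 2 := by fin_cases q <;> simp
      rcases hq3 with rfl | rfl | rfl
      · exact Or.inl (Or.inl hq)
      · exact Or.inl (Or.inr hq)
      · exact Or.inr hq
    · rintro ((h | h) | h)
      · exact ⟨0, h⟩
      · exact ⟨1, h⟩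
      · exact ⟨2, h⟩
  have hch : choices (2 * A * (Nat.log b (K + 1) + 1)) K s = Pool.Agent.TH894.LG.Ch b A K s := by
    unfold choices Pool.Agent.TH894.LG.Ch
    simp only [hwin]
  have key := h0 K (by omega) N hN f hf s (fun q => (hs q).1) (fun q => by rw [← hwin]; exact (hs q).2) c hc x hx Q hQ
  unfold total residue
  rw [hch]
  simp only [← hun, change_SM]
  convert key using 4
  rfl

end Pool.Agent.Results.MP_a78e8f_nt.AveragesOverFewResidues
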