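import Pool.Agent.TH872.An4

/-!
# The conjecture of Elliott and Halberstam on average over the rearrangements of the digits of an integer

Absolute values over all moduli and arbitrary heights inside; the residue is averaged, with arbitrary
coefficients, over the integers which arise by a rearrangement of the digits of an arbitrary integer.

Definitions used (in `Pool.Agent.TH872.An`): `Spread b k η d`: the integers `d i` (`i < k`) are digits in
base `b`, and no digit is taken at more than `(1 - η) k` of the `k` places `i`; `V b d σ`: the integer with the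
permuted digits, thus the integer with the digit `d (σ i)` at the place `i`, in base `b`.

From Mathlib: `ArithmeticFunction.vonMangoldt`: the function `Λ`; `Nat.totient`: Euler's function.
-/

set_option autoImplicit false

namespace Pool.Agent.Results.MP_a78e8f_nt.DigitPermutationAverages

open Finset Pool.Agent.TH872.An

/-- `ψ(x; q, a)`: the sum of `Λ(n)` over the `n ≤ x` with `n ≡ a (mod q)`. -/
noncomputable def psi (x q a : ℕ) : ℝ :=
  ∑ n ∈ (Icc 1 x).filter (fun n => n ≡ a [MOD q]), ArithmeticFunction.vonMangoldt n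

/-- The sum of `w(σ) (ψ(x; q, a) - x / φ(q))` over the permutations `σ` of the `k` places for which the residue
`a = c + κ v`, where `v` has the permuted digits `d`, is positive and coprime to `q`. -/
noncomputable def total (b : ℕ) {k : ℕ} (d : Fin k → ℕ) (κ c : ℤ) (w : Equiv.Perm (Fin k) → ℝ) (x q : ℕ) : ℝ :=
  ∑ σ ∈ univ.filter (fun σ => 0 < c + κ * V b d σ ∧ (c + κ * V b d σ).toNat.Coprime q),
    w σ * (psi x q (c + κ * V b d σ).toNat - (x : ℝ) / Nat.totient q)

/-- Let `b ≥ 2`, `B`, `T`, `U`, `κ ≠ 0`, `η > 0` and `ε > 0` be fixed, let `k` be large and `N = b ^ k`, let `d`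
be an arbitrary sequence of `k` digits in base `b` none of which is taken at more than `(1 - η) k` places, let
`c` be an arbitrary integer with `|c| ≤ B N`, let `w(σ)` be arbitrary real coefficients with `|w(σ)| ≤ k ^ T`,
one for every permutation `σ` of the `k` places, and for every modulus `q` let `x(q) ≤ B N` be an arbitrary height.

Then the sum over ALL moduli `q ≤ N ^ (1 - ε)` of the ABSOLUTE VALUE of the sum of
`w(σ) (ψ(x(q); q, a_σ) - x(q) / φ(q))`, over the permutations `σ` for which the residue `a_σ = c + κ v_σ`, where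
`v_σ` has the permuted digits, is positive and coprime to `q`, is at most `k! N / k ^ U`. -/
theorem result (b B T U : ℕ) (hb : 2 ≤ b) (κ : ℤ) (hκ : κ ≠ 0) (η ε : ℝ) (hη : 0 < η) (hε : 0 < ε) :
    ∃ k₀ : ℕ, ∀ k : ℕ, k₀ ≤ k → ∀ d : Fin k → ℕ, Spread b k η d → ∀ c : ℤ, |c| ≤ B * (b : ℤ) ^ k →
      ∀ w : Equiv.Perm (Fin k) → ℝ, (∀ σ, |w σ| ≤ (k : ℝ) ^ T) → ∀ x : ℕ → ℕ, (∀ q, x q ≤ B * b ^ k) →
      ∑ q ∈ Icc 1 ⌊((b ^ k : ℕ) : ℝ) ^ (1 - ε)⌋₊, |total b d κ c w (x q) q| ≤
        Nat.factorial k * (((b ^ k : ℕ) : ℝ) / (k : ℝ) ^ U) := by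
  classical
  obtain ⟨e, he⟩ : ∃ e, e = B + κ.natAbs := ⟨_, rfl⟩
  obtain ⟨V', hV⟩ := av_law b (FA b κ) hb (FA_pos b hb κ hκ) ε hε T (U + 1)
  obtain ⟨D, K1, hD⟩ := an_law b hb η hη κ (e + 1) V'
  obtain ⟨K₀, hK₀⟩ := hV D
  refine ⟨K₀ + K1 + b ^ (e + 1) + 1, fun k hk' d hd c hc w hw x hx => ?_⟩
  have hpe : 0 < b ^ (e + 1) := by positivity
  obtain ⟨K, hK⟩ : ∃ K, K = k + (e + 1) := ⟨_, rfl⟩
  have hKk : K = k + e + 1 := by omega
  have hK1 : K - 1 = k + e := by omega
  have hkr : (1 : ℝ) ≤ k := by exact_mod_cast (by omega : 1 ≤ k)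
  have hkK : (k : ℝ) ≤ K := by exact_mod_cast (by omega : k ≤ K)
  have hKbig : (b : ℝ) ^ (e + 1) ≤ K := by exact_mod_cast (by omega : b ^ (e + 1) ≤ K)
  have hb1 : (1 : ℝ) ≤ b := by exact_mod_cast (by omega : 1 ≤ b)
  have hbk : (1 : ℝ) ≤ ((b ^ k : ℕ) : ℝ) := by exact_mod_cast Nat.one_le_pow _ _ (by omega)
  have hbkK : ((b ^ k : ℕ) : ℝ) ≤ ((b ^ K : ℕ) : ℝ) := by
    exact_mod_cast Nat.pow_le_pow_right (by omega) (by omega)
  have h := hK₀ K (by omega) _ univ (fun _ => 1 / (k.factorial : ℝ)) (fun σ => c + κ * (V b d σ : ℕ))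
    (hD k K hK (by omega) d hd c) (by
      intro σ _
      have h1 := size b B hb κ k _ (V_lt hd (by omega) σ) c hc
      rw [← he, abs_lt] at h1
      have h2 : ((b ^ (k + e) : ℕ) : ℤ) < ((b ^ K : ℕ) : ℤ) := by
        exact_mod_cast Nat.pow_lt_pow_right (by omega) (by omega)
      rw [hK1]
      exact ⟨by linarith [h1.1], h1.2.le⟩)
    w (fun σ => (hw σ).trans (pow_le_pow_left₀ (by linarith) hkK T)) x (by
      intro q
      refine (hx q).trans ?_
      rw [hK1, pow_add, mul_comm]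
      apply Nat.mul_le_mul_left
      calc B ≤ e := by omega
        _ ≤ b ^ e := (Nat.lt_pow_self (by omega)).le)
    ⌊((b ^ k : ℕ) : ℝ) ^ (1 - ε)⌋₊ (by
      by_cases h1 : ε ≤ 1
      · refine (Nat.floor_le (by positivity)).trans ?_
        exact Real.rpow_le_rpow (by positivity) hbkK (by linarith)
      · push Not at h1
        rcases Nat.eq_zero_or_pos ⌊((b ^ k : ℕ) : ℝ) ^ (1 - ε)⌋₊ with h2 | h2
        · rw [h2]
          push_cast
          positivity
        · exfalso
          have h3 : (1 : ℝ) ≤ ((b ^ k : ℕ) : ℝ) ^ (1 - ε) := by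
            have := Nat.floor_le (a := ((b ^ k : ℕ) : ℝ) ^ (1 - ε)) (by positivity)
            have h4 : (1 : ℝ) ≤ (⌊((b ^ k : ℕ) : ℝ) ^ (1 - ε)⌋₊ : ℝ) := by exact_mod_cast h2
            linarith
          have h5 : (1 : ℝ) < ((b ^ k : ℕ) : ℝ) := by
            exact_mod_cast Nat.one_lt_pow (by omega) (by omega)
          have h6 := Real.rpow_lt_one_of_one_lt_of_neg h5 (by linarith : 1 - ε < 0)
          linarith)
  have hfac : (0 : ℝ) < (k.factorial : ℝ) := by exact_mod_cast k.factorial_pos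
  have e1 : ∀ q, |∑ σ ∈ univ.filter (fun σ => 0 < c + κ * (V b d σ : ℕ) ∧ (c + κ * (V b d σ : ℕ)).toNat.Coprime q),
      1 / (k.factorial : ℝ) * (w σ * Er (x q) q (c + κ * (V b d σ : ℕ)).toNat)| = |total b d κ c w (x q) q| / k.factorial := by
    intro q
    rw [← mul_sum, abs_mul, abs_of_pos (by positivity)]
    unfold total
    rw [one_div, inv_mul_eq_div]
    rfl
  simp only [e1] at h
  rw [← sum_div, div_le_iff₀ hfac] at h
  refine h.trans ?_
  rw [mul_comm]
  apply mul_le_mul_of_nonneg_left _ hfac.le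
  rw [div_le_div_iff₀ (pow_pos (by linarith) _) (pow_pos (by linarith) _), hKk]
  push_cast
  rw [show k + e + 1 = k + (e + 1) by ring, pow_add (b : ℝ) k (e + 1), pow_succ _ U]
  have e1 : (k : ℝ) ^ U ≤ (k + e + 1) ^ U := pow_le_pow_left₀ (by positivity) (by linarith [(Nat.cast_nonneg e : (0 : ℝ) ≤ e)]) U
  have e2 : (b : ℝ) ^ (e + 1) ≤ (k + e + 1) := by
    refine hKbig.trans (le_of_eq ?_)
    rw [hKk]
    push_cast
    ring
  calc (b : ℝ) ^ k * (b : ℝ) ^ (e + 1) * (k : ℝ) ^ U = (b : ℝ) ^ k * ((k : ℝ) ^ U * (b : ℝ) ^ (e + 1)) := by ring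
    _ ≤ (b : ℝ) ^ k * ((k + e + 1) ^ U * (k + e + 1)) := by
        apply mul_le_mul_of_nonneg_left _ (by positivity)
        exact mul_le_mul e1 e2 (by positivity) (by positivity)

end Pool.Agent.Results.MP_a78e8f_nt.DigitPermutationAverages
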