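import Pool.Agent.TH926.EH.LgFam

/-!
# The Elliott-Halberstam sum at every level `θ < 1`, for all but few fixed residues

`E(x; q, a) = |π(x; q, a) - π(x)/φ(q)|`, sums over the moduli `q ≤ Q`:

* for arbitrary families of residue systems `c_i(q)`, in terms of the number of coincidences,
  `Q ≤ x / (log x)^(U+1)`;
* for arbitrary sets of residues `a ≤ x^B` on average, `Q ≤ x^(1-ε)`;
* hence for all but `C (log x)^(8U+30) Q² / x` residues `a ≤ x^B`, `Q ≤ x^(1-ε)`.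

The proof treats the characters of conductor at most `√x / (log x)^(U+4)` by a theorem of
Bombieri-Vinogradov type and the other ones by the large sieve (`Pool.Agent.H441R3.BV`,
`Pool.Agent.Helper112` in the starting files).
-/

set_option autoImplicit false

namespace Pool.Agent.Results.MP_a78e8f_nt.PowerSavingExceptions

open Finset

/-- the number of primes `p ≤ x` -/
noncomputable def primePi (x : ℕ) : ℕ := ((Icc 1 x).filter (fun p : ℕ => p.Prime)).card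

/-- the number of primes `p ≤ x` with `p ≡ a (mod q)` -/
noncomputable def primePiAP (x q a : ℕ) : ℕ :=
  ((Icc 1 x).filter (fun p : ℕ => p.Prime ∧ p ≡ a [MOD q])).card

/-- `E(x; q, a) = |π(x; q, a) - π(x)/φ(q)|` -/
noncomputable def err (x q a : ℕ) : ℝ :=
  |(primePiAP x q a : ℝ) - (primePi x : ℝ) / (Nat.totient q : ℝ)|

/-- the sum of `E(x; q, c q)` over all the `q ≤ Q` which are coprime to `c q` -/
noncomputable def S (x Q : ℕ) (c : ℕ → ℕ) : ℝ :=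
  ∑ q ∈ (Icc 1 Q).filter (fun q => (c q).Coprime q), err x q (c q)

/-- the number of the `(q, i, j)` with `q ≤ Q`, `i, j ∈ I` and `c i q ≡ c j q (mod q)` -/
noncomputable def coincidences {ι : Type} (I : Finset ι) (c : ι → ℕ → ℕ) (Q : ℕ) : ℕ :=
  ∑ q ∈ Icc 1 Q, ((I ×ˢ I).filter (fun p => c p.1 q ≡ c p.2 q [MOD q])).card

/-- **The Elliott-Halberstam sum at every level `θ < 1`, for all but few residues.**

1. For every finite family `c_i`, `i ∈ I`, of residue systems and `Q ≤ x / (log x)^(U+1)`, the sum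
of `E(x; q, c_i(q))` over `i ∈ I` and `q ≤ Q` (coprime) is at most
`C (|I| x / (log x)^U + (K Q x)^(1/2) (log x)^(3U+12))`, `K` the number of coincidences.

2. For every set `A` of natural numbers `a ≤ x^B` and `Q ≤ x^(1-ε)`, the sum of `E(x; q, a)` over
`a ∈ A` and `q ≤ Q` (coprime) is at most
`C (|A| x / (log x)^U + |A|^(1/2) Q x^(1/2) (log x)^(3U+12))`.

3. For `Q ≤ x^(1-ε)`, all but at most `C (log x)^(8U+30) Q² / x` of the `a ≤ x^B` satisfy
`∑_{q ≤ Q, (q,a)=1} E(x; q, a) ≤ x / (log x)^U`. -/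
theorem result :
    (∀ U : ℕ, ∃ C : ℝ, ∀ x : ℕ, 2 < x → ∀ Q : ℕ, (Q : ℝ) ≤ x / Real.log x ^ (U + 1) →
      ∀ (ι : Type) (I : Finset ι) (c : ι → ℕ → ℕ),
        ∑ i ∈ I, S x Q (c i) ≤ C * (I.card * (x / Real.log x ^ U) +
          Real.sqrt (coincidences I c Q * Q * x) * Real.log x ^ (3 * U + 12))) ∧
    (∀ ε B : ℝ, 0 < ε → 0 < B → ∀ U : ℕ, ∃ C : ℝ, ∀ x : ℕ, 2 < x →
      ∀ Q : ℕ, (Q : ℝ) ≤ (x : ℝ) ^ (1 - ε) → ∀ A : Finset ℕ, (∀ a ∈ A, (a : ℝ) ≤ (x : ℝ) ^ B) →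
        ∑ a ∈ A, S x Q (fun _ => a) ≤ C * (A.card * (x / Real.log x ^ U) +
          Real.sqrt A.card * (Q * Real.sqrt x * Real.log x ^ (3 * U + 12)))) ∧
    (∀ ε B : ℝ, 0 < ε → 0 < B → ∀ U : ℕ, ∃ C : ℝ, ∀ x : ℕ, 2 < x →
      ∀ Q : ℕ, (Q : ℝ) ≤ (x : ℝ) ^ (1 - ε) →
        (((Icc 1 ⌊(x : ℝ) ^ B⌋₊).filter
          (fun a : ℕ => ¬ S x Q (fun _ => a) ≤ x / Real.log x ^ U)).card : ℝ) ≤
            C * Real.log x ^ (8 * U + 30) * ((Q : ℝ) ^ 2 / x)) := by
  -- reduction to small `ε`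
  have hcase : ∀ (ε : ℝ), 0 < ε → ∀ x Q : ℕ, 2 < x → (Q : ℝ) ≤ (x : ℝ) ^ (1 - ε) →
      (Q : ℝ) ≤ (x : ℝ) ^ (1 - min ε (1 / 2)) := by
    intro ε hε x Q hx hQ
    have hx1 : (1 : ℝ) ≤ x := by exact_mod_cast (by omega : 1 ≤ x)
    refine hQ.trans ?_
    apply Real.rpow_le_rpow_of_exponent_le hx1
    linarith [min_le_left ε (1 / 2)]
  have hlog : ∀ x : ℕ, 2 < x → 0 < Real.log x := fun x hx =>
    lt_of_lt_of_le one_pos (Pool.Agent.TH926.EH.log_ge_one (by omega : 3 ≤ x))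
  refine ⟨?_, ?_, ?_⟩
  · intro U
    obtain ⟨C, hC0, hC⟩ := Pool.Agent.TH926.EH.fam2 U
    refine ⟨C, fun x hx Q hQ ι I c => ?_⟩
    have hl := hlog x hx
    rw [le_div_iff₀ (by positivity)] at hQ
    have h1 := hC x (by omega) Q hQ ι I c
    have h3 : (Pool.Agent.TH926.EH.en I c Q) = coincidences I c Q := rfl
    have h4 : 3 * (U + 4) = 3 * U + 12 := by ring
    rw [h3, h4, ← mul_assoc] at h1
    exact h1
  · intro ε B hε hB U
    obtain ⟨C, hC0, hC⟩ := Pool.Agent.TH926.EH.sets2 (min ε (1 / 2)) B (lt_min hε (by norm_num))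
      (lt_of_le_of_lt (min_le_right _ _) (by norm_num)) hB.le U
    refine ⟨C, fun x hx Q hQ A hA => ?_⟩
    have h1 := hC x (by omega) Q (hcase ε hε x Q hx hQ) A hA
    have h4 : 3 * (U + 4) = 3 * U + 12 := by ring
    rw [h4] at h1
    exact h1
  · intro ε B hε hB U
    obtain ⟨C, hC0, hC⟩ := Pool.Agent.TH926.EH.few_bad2 (min ε (1 / 2)) B
      (lt_min hε (by norm_num)) (lt_of_le_of_lt (min_le_right _ _) (by norm_num)) hB.le U
    refine ⟨C, fun x hx Q hQ => ?_⟩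
    have h4 : 2 * U + 6 * (U + 5) = 8 * U + 30 := by ring
    rw [← h4]
    apply hC x (by omega) Q (hcase ε hε x Q hx hQ)
    intro a ha
    rw [mem_filter, mem_Icc] at ha
    refine ⟨ha.1.1, ?_, not_le.1 ha.2⟩
    calc (a : ℝ) ≤ (⌊(x : ℝ) ^ B⌋₊ : ℝ) := by exact_mod_cast ha.1.2
      _ ≤ (x : ℝ) ^ B := Nat.floor_le (by positivity)

end Pool.Agent.Results.MP_a78e8f_nt.PowerSavingExceptions
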