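import Pool.Agent.TH212.EH.A6

/-!
# Level of distribution `N / exp (K (log log N) ^ 2)` for almost all members of thin families of residues

The first moments of the correlations with `Λ - Λ_z` along families of nearly minimal additive energy
(`Pool.Agent.H560R3.GB.LamE`), the energy of polynomial values (`Pool.Agent.H373R2.T7`), and the sieve for the model
`Λ_z` with arbitrary weights on the moduli (`Pool.Agent.W93.LV*`) are from the starting files.
-/

set_option autoImplicit false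

namespace Pool.Agent.Results.MP_a78e8f_nt.ThinFamilies

open Finset Polynomial

/-- The additive energy of order `h` of a finite family `v` of integers: the number of the solutions of
`v (i 1) + ⋯ + v (i h) = v (j 1) + ⋯ + v (j h)`. -/
noncomputable def energy (h : ℕ) {ι : Type} [Fintype ι] (v : ι → ℤ) : ℕ :=
  Nat.card {q : (Fin h → ι) × (Fin h → ι) // ∑ j, v (q.1 j) = ∑ j, v (q.2 j)}

/-- `ψ(x; q, a) - x / φ(q)`, where `ψ(x; q, a)` is the sum of `Λ(n)` over the `1 ≤ n ≤ x` with `n ≡ a (mod q)`. -/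
noncomputable def E (x q : ℕ) (a : ℤ) : ℝ :=
  ∑ n ∈ (Icc 1 x).filter (fun n : ℕ => (n : ℤ) ≡ a [ZMOD q]), ArithmeticFunction.vonMangoldt n -
    (x : ℝ) / Nat.totient q

/-- `N / exp (K (log log N) ^ 2)` -/
noncomputable def level (K N : ℕ) : ℝ := N / Real.exp (K * Real.log (Real.log N) ^ 2)

/-- `τ(q)`, the number of the divisors of `q` -/
noncomputable def τ (q : ℕ) : ℝ := q.divisors.card

open Classical in
/-- The primes up to `B N` have the level of distribution `N / exp (K (log log N) ^ 2)` along the family `v` of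
residues:

* for every function `λ` on the moduli with `|λ(q)| ≤ (τ(q) log N) ^ T`, for all but at most `#ι / log ^ U N` members
  `a > 0` of the family, the sum of `λ(q) E(x; q, a)` over the `q ≤ Q` coprime to `a` is at most `N / log ^ U N` in
  absolute value for ALL `Q ≤ N / exp (K (log log N) ^ 2)` and ALL `x ≤ B N`; and the same for all `Q`, if the length
  `x = x(q) ≤ B N` is an arbitrary function of the modulus;
* for all coefficients `|c i| ≤ log ^ T N` of the members of the family and all functions `x(q) ≤ B N`, the sum over the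
  `q ≤ N / exp (K (log log N) ^ 2)` of `τ(q) ^ T` times the ABSOLUTE VALUE of the sum of `c i E(x(q); q, v i)` over the
  members `v i > 0` coprime to `q` is at most `#ι N / log ^ U N`. -/
def Level (K N B T U : ℕ) {ι : Type} [Fintype ι] (v : ι → ℤ) : Prop :=
  (∀ lam : ℕ → ℝ, (∀ q, |lam q| ≤ (τ q * Real.log N) ^ T) →
    ((univ.filter (fun i : ι => 0 < v i ∧ ∃ Q : ℕ, (Q : ℝ) ≤ level K N ∧ ∃ x : ℕ, x ≤ B * N ∧
      N / Real.log N ^ U < |∑ q ∈ (Icc 1 Q).filter (fun q : ℕ => Int.gcd (v i) q = 1), lam q * E x q (v i)|)).card : ℝ) ≤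
        Fintype.card ι / Real.log N ^ U ∧
    ∀ x : ℕ → ℕ, (∀ q, x q ≤ B * N) →
    ((univ.filter (fun i : ι => 0 < v i ∧ ∃ Q : ℕ, (Q : ℝ) ≤ level K N ∧
      N / Real.log N ^ U < |∑ q ∈ (Icc 1 Q).filter (fun q : ℕ => Int.gcd (v i) q = 1), lam q * E (x q) q (v i)|)).card : ℝ) ≤
        Fintype.card ι / Real.log N ^ U) ∧
  (∀ c : ι → ℝ, (∀ i, |c i| ≤ Real.log N ^ T) → ∀ x : ℕ → ℕ, (∀ q, x q ≤ B * N) →
    ∑ q ∈ Icc 1 ⌊level K N⌋₊, τ q ^ T *
      |∑ i ∈ univ.filter (fun i : ι => 0 < v i ∧ Int.gcd (v i) q = 1), c i * E (x q) q (v i)| ≤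
        Fintype.card ι * N / Real.log N ^ U)

theorem gcd_iff (a : ℤ) (ha : 0 < a) (q : ℕ) : Int.gcd a q = 1 ↔ a.toNat.Coprime q := by
  obtain ⟨b, rfl⟩ := Int.eq_ofNat_of_zero_le ha.le
  rw [Int.gcd_natCast_natCast, Int.toNat_natCast, Nat.coprime_iff_gcd_eq_one]

theorem E_eq (x q : ℕ) (a : ℤ) (ha : 0 < a) : E x q a =
    Pool.Agent.W93.LV.Fu (fun n => ArithmeticFunction.vonMangoldt n) x q a.toNat - (x : ℝ) / Nat.totient q := by
  obtain ⟨b, rfl⟩ := Int.eq_ofNat_of_zero_le ha.le
  unfold E Pool.Agent.W93.LV.Fu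
  rw [Int.toNat_natCast]
  congr 1
  apply sum_congr _ (fun _ _ => rfl)
  ext n
  simp only [mem_filter, Int.natCast_modEq_iff]

theorem sum_eq (lam : ℕ → ℝ) (x : ℕ → ℕ) (Q : ℕ) (a : ℤ) (ha : 0 < a) :
    ∑ q ∈ (Icc 1 Q).filter (fun q : ℕ => Int.gcd a q = 1), lam q * E (x q) q a =
      Pool.Agent.TH212.EH.WW lam x Q a.toNat := by
  unfold Pool.Agent.TH212.EH.WW
  simp only [gcd_iff a ha, E_eq _ _ a ha]

theorem level_of (p B B' C T U : ℕ) (hB : B ≤ B') : ∃ K N₀ : ℕ, ∀ N : ℕ, N₀ ≤ N → ∀ (ι : Type) [Fintype ι] (v : ι → ℤ),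
    (∀ i, |v i| ≤ B' * N) → (energy p v : ℝ) * N ≤ Real.log N ^ C * (Fintype.card ι : ℝ) ^ (2 * p) →
    Level K N B T U v := by
  classical
  obtain ⟨K1, n1, h1⟩ := Pool.Agent.TH212.EH.few p B' C T U
  obtain ⟨K2, n2, h2⟩ := Pool.Agent.TH212.EH.dual p B' C T U
  refine ⟨max K1 K2, n1 + n2, fun N hN ι _ v hv hE => ?_⟩
  have hBN : B * N ≤ B' * N := Nat.mul_le_mul_right _ hB
  have hlev1 : level (max K1 K2) N ≤ Pool.Agent.TH212.EH.level K1 N :=
    Pool.Agent.TH212.EH.level_anti K1 _ N (le_max_left _ _)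
  have hlev2 : level (max K1 K2) N ≤ Pool.Agent.TH212.EH.level K2 N :=
    Pool.Agent.TH212.EH.level_anti K2 _ N (le_max_right _ _)
  have hlev0 : 0 ≤ level (max K1 K2) N := by unfold level; positivity
  constructor
  · intro lam hlam
    have hlam' : ∀ q, |lam q| ≤ Real.log N ^ T * (q.divisors.card : ℝ) ^ T := by
      intro q
      refine (hlam q).trans (le_of_eq ?_)
      rw [mul_pow, mul_comm]
      rfl
    obtain ⟨k1, k2⟩ := h1 N (by omega) ι v hv hE lam hlam'
    constructor
    · refine le_trans ?_ k1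
      apply Nat.cast_le.2
      apply card_le_card
      intro i hi
      rw [mem_filter] at hi ⊢
      obtain ⟨_, hi1, Q, hQ, x, hx, hbig⟩ := hi
      refine ⟨mem_univ _, hi1, Q, hQ.trans hlev1, x, hx.trans hBN, ?_⟩
      rw [sum_eq lam (fun _ => x) Q (v i) hi1] at hbig
      exact hbig
    · intro x hx
      refine le_trans ?_ (k2 x (fun q => (hx q).trans hBN))
      apply Nat.cast_le.2
      apply card_le_card
      intro i hi
      rw [mem_filter] at hi ⊢
      obtain ⟨_, hi1, Q, hQ, hbig⟩ := hi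
      refine ⟨mem_univ _, hi1, Q, hQ.trans hlev1, ?_⟩
      rw [sum_eq lam x Q (v i) hi1] at hbig
      exact hbig
  · intro c hc x hx
    have k3 := h2 N (by omega) ι v hv hE c hc ⌊level (max K1 K2) N⌋₊ ((Nat.floor_le hlev0).trans hlev2) x
      (fun q => (hx q).trans hBN)
    rw [mul_comm (Fintype.card ι : ℝ)]
    refine le_trans (le_of_eq ?_) k3
    apply sum_congr rfl
    intro q _
    unfold τ
    congr 2
    apply sum_congr
    · ext i
      simp only [mem_filter, mem_univ, true_and]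
      constructor
      · rintro ⟨h3, h4⟩
        exact ⟨h3, (gcd_iff _ h3 q).1 h4⟩
      · rintro ⟨h3, h4⟩
        exact ⟨h3, (gcd_iff _ h3 q).2 h4⟩
    · intro i hi
      rw [mem_filter] at hi
      rw [E_eq _ _ _ hi.2.1]

/-- **Level of distribution `N / exp (K (log log N) ^ 2)` along thin families of residues.**

(1) For all `h`, `B`, `C`, `T`, `U` there is a `K` such that for every large `N` and every finite family `v` of integers
of size at most `B N` whose additive energy of order `h` is, up to a factor `log ^ C N`, as small as possible,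
`energy h v ≤ log ^ C N · #ι ^ (2 h) / N`, the primes up to `B N` have the level of distribution
`N / exp (K (log log N) ^ 2)` along `v`.

(2) This applies to the values of polynomials: for every `f ∈ ℤ[X]` of degree `d ≥ 1` and all `B`, `T`, `U` there is a
`K` such that for every large `M` and EVERY integer `c` with `|c| ≤ B M ^ d` the primes up to `B M ^ d` have the level of
distribution `N / exp (K (log log N) ^ 2)`, `N = M ^ d`, along the `M` residues `c + f(m)`, `1 ≤ m ≤ M`. -/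
theorem result :
    (∀ h B C T U : ℕ, ∃ K N₀ : ℕ, ∀ N : ℕ, N₀ ≤ N → ∀ (ι : Type) [Fintype ι] (v : ι → ℤ), (∀ i, |v i| ≤ B * N) →
      (energy h v : ℝ) * N ≤ Real.log N ^ C * (Fintype.card ι : ℝ) ^ (2 * h) → Level K N B T U v) ∧
    (∀ f : ℤ[X], 1 ≤ f.natDegree → ∀ B T U : ℕ, ∃ K M₀ : ℕ, ∀ M : ℕ, M₀ ≤ M →
      ∀ c : ℤ, |c| ≤ B * ((M ^ f.natDegree : ℕ) : ℤ) →
        Level K (M ^ f.natDegree) B T U (fun i : Fin M => c + f.eval ((i : ℕ) + 1 : ℤ))) := by
  refine ⟨fun h B C T U => level_of h B B C T U le_rfl, fun f hf B T U => ?_⟩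
  obtain ⟨p, B', M0, hBB, hM⟩ := Pool.Agent.TH212.EH.poly_hyp f hf B
  obtain ⟨K, N0, hN⟩ := level_of p B B' 1 T U hBB
  refine ⟨K, M0 + N0, fun M hMM c hc => ?_⟩
  obtain ⟨k1, k2⟩ := hM M (by omega) c hc
  have hMp : M ≤ M ^ f.natDegree := Nat.le_self_pow (by omega) M
  have key := hN (M ^ f.natDegree) (by omega) (Fin M) (fun i : Fin M => c + f.eval (((i : ℕ) + 1 : ℕ) : ℤ)) k1 k2
  push_cast at key ⊢
  exact key

end Pool.Agent.Results.MP_a78e8f_nt.ThinFamilies
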